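import Pool.Agent.M45f4ba.Q1

/-!
A criterion for Q1 in every number of variables and for all weights.
The hypersurface `X = {p = 0}` may be reducible and non-normal, and `p` may be non-reduced.
`X` admits a non-trivial regular action of the additive group if and only if there is a
quasihomogeneous polynomial `h` such that `X ∖ {h = 0}` is a nonempty cylinder.
-/

namespace Pool.Agent.Results.MP_45f4ba_ag.Q1Cylinder

open Pool.Agent.M45f4ba

theorem result {n : ℕ} (w : Fin n → ℕ) (d : ℕ) (p : MvPolynomial (Fin n) ℂ) (hp0 : p ≠ 0)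
    (hp : MvPolynomial.IsWeightedHomogeneous w p d) :
    AdmitsAdditiveAction p ↔
      ∃ (h : MvPolynomial (Fin n) ℂ) (m : ℕ), MvPolynomial.IsWeightedHomogeneous w h m ∧
        ∃ (A : Type) (_ : CommRing A) (_ : Algebra ℂ A), Nontrivial A ∧
          Nonempty (Localization.Away (Ideal.Quotient.mk _ h : CoordRing p) ≃ₐ[ℂ]
            Polynomial A) :=
  action_iff_cylinder hp0 hp

end Pool.Agent.Results.MP_45f4ba_ag.Q1Cylinder
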