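import Pool.Agent.M45f4ba.Q1

/-!
Answer to Q1 for surfaces (three variables), all positive weights, by an exact criterion.
The surface `X = {p = 0}` may be reducible, non-normal, and `p` may be non-reduced.
`X` admits a non-trivial regular action of the additive group if and only if there is a
quasihomogeneous polynomial `h` such that `X ∖ {h = 0}` is isomorphic to the product of the
punctured affine line and the affine line.
-/

namespace Pool.Agent.Results.MP_45f4ba_ag.Q1Surfaces

open Pool.Agent.M45f4ba

theorem result (w : Fin 3 → ℕ) (hw : ∀ i, 0 < w i) (d : ℕ)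
    (p : MvPolynomial (Fin 3) ℂ) (hp0 : p ≠ 0) (hp : MvPolynomial.IsWeightedHomogeneous w p d) :
    AdmitsAdditiveAction p ↔
      ∃ (h : MvPolynomial (Fin 3) ℂ) (m : ℕ), MvPolynomial.IsWeightedHomogeneous w h m ∧
        Nonempty (Localization.Away (Ideal.Quotient.mk _ h : CoordRing p) ≃ₐ[ℂ]
          Polynomial (LaurentPolynomial ℂ)) :=
  action_iff_surface hw hp0 hp

end Pool.Agent.Results.MP_45f4ba_ag.Q1Surfaces
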