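import Pool.Agent.M45f4ba.Curve5

/-!
Answer to Q2 by an exact criterion, for every number of variables and all positive weights.
Let `X = {p = 0}` be a quasihomogeneous hypersurface.  Then the following are equivalent:

* there is a non-constant polynomial map `ℂ → X` whose image is not the closure of an orbit of
  any regular action of `ℂˣ` on `X`;
* the weighted projective variety `(X ∖ {0}) / ℂˣ` contains a rational curve;
* `X` contains a unirational surface: there is a polynomial map `ℂ² → X` of generic rank two.
-/

namespace Pool.Agent.Results.MP_45f4ba_ag.Q2Criterion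

open Pool.Agent.M45f4ba

theorem result {n : ℕ} (w : Fin n → ℕ) (hw : ∀ i, 0 < w i) (d : ℕ)
    (p : MvPolynomial (Fin n) ℂ) (hp : MvPolynomial.IsWeightedHomogeneous w p d) :
    (HasNonOrbitCurve p ↔ HasRationalCurve w p) ∧ (HasNonOrbitCurve p ↔ HasPlaneMap p) :=
  ⟨hasNonOrbitCurve_iff hw hp,
    fun h => planeMap_of_rational hw hp (rational_of_nonOrbit hw hp h),
    fun h => nonOrbit_of_rational hw hp (rational_of_planeMap hw h)⟩

end Pool.Agent.Results.MP_45f4ba_ag.Q2Criterion
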